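import Pool.Agent.MP_dd77b8_co.H98.Entropy

set_option autoImplicit false

namespace Pool.Agent.MP_dd77b8_co.H98

open Finset Filter

theorem eventually_log_lt (A B r : ℝ) (hr : 0 < r) :
    ∃ D : ℝ, ∀ d : ℝ, D ≤ d → A + B * Real.log d < d ^ r := by
  have h1 := (isLittleO_log_rpow_atTop hr).const_mul_left B
  have h2 := h1.bound (c := 1 / 2) (by norm_num)
  have h3 := (tendsto_rpow_atTop hr).eventually_gt_atTop (2 * A)
  have h4 := (h2.and h3).and (eventually_gt_atTop (0 : ℝ))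
  obtain ⟨D, hD⟩ := Filter.eventually_atTop.1 h4
  refine ⟨D, fun d hd => ?_⟩
  obtain ⟨⟨h5, h6⟩, h7⟩ := hD d hd
  have h8 : 0 < d ^ r := Real.rpow_pos_of_pos h7 r
  rw [Real.norm_eq_abs, Real.norm_eq_abs, abs_of_pos h8] at h5
  have := le_abs_self (B * Real.log d)
  linarith

theorem sub_le_choose (k n : ℕ) : n - k ≤ n.choose (k + 1) := by
  induction n with
  | zero => simp
  | succ n ih =>
    rw [Nat.choose_succ_succ']
    by_cases h : k ≤ n
    · have := Nat.choose_pos h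
      omega
    · omega

theorem choose_le_rpow (k n : ℕ) (hn : 2 * k + 1 ≤ n) :
    (n.choose k : ℝ) ≤ 2 * (k + 1) * (n.choose (k + 1) : ℝ) ^ ((k : ℝ) / (k + 1)) := by
  have h1 : n.choose (k + 1) * (k + 1) = n.choose k * (n - k) := Nat.choose_succ_right_eq n k
  have hkn : k ≤ n := by omega
  have h2 : (n.choose (k + 1) : ℝ) * (k + 1) = n.choose k * ((n : ℝ) - k) := by
    have := congrArg (fun x : ℕ => (x : ℝ)) h1
    simpa [Nat.cast_sub hkn] using this
  set d : ℝ := (n.choose (k + 1) : ℝ) with hd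
  have hd0 : 0 < d := by
    rw [hd]
    exact_mod_cast Nat.choose_pos (by omega)
  have hn0 : (0 : ℝ) < n := by exact_mod_cast (by omega : 0 < n)
  have hk1 : (0 : ℝ) < k + 1 := by positivity
  have h3 : d ≤ (n : ℝ) ^ (k + 1) := by
    rw [hd]
    exact_mod_cast Nat.choose_le_pow n (k + 1)
  have h4 : d ^ ((1 : ℝ) / (k + 1)) ≤ n := by
    calc d ^ ((1 : ℝ) / (k + 1)) ≤ ((n : ℝ) ^ (k + 1)) ^ ((1 : ℝ) / (k + 1)) :=
          Real.rpow_le_rpow hd0.le h3 (by positivity)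
      _ = n := by
          rw [← Real.rpow_natCast, ← Real.rpow_mul hn0.le]
          push_cast
          rw [mul_one_div_cancel hk1.ne', Real.rpow_one]
  have h5 : d = d ^ ((k : ℝ) / (k + 1)) * d ^ ((1 : ℝ) / (k + 1)) := by
    rw [← Real.rpow_add hd0, ← add_div, div_self hk1.ne', Real.rpow_one]
  have h6 : (n : ℝ) ≤ 2 * ((n : ℝ) - k) := by
    have : ((2 * k + 1 : ℕ) : ℝ) ≤ n := by exact_mod_cast hn
    push_cast at this
    linarith
  have h7 : 0 < d ^ ((k : ℝ) / (k + 1)) := Real.rpow_pos_of_pos hd0 _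
  have h8 : (0 : ℝ) ≤ n.choose k := by positivity
  have h9 : (n.choose k : ℝ) * n ≤ 2 * (k + 1) * d ^ ((k : ℝ) / (k + 1)) * n := by
    calc (n.choose k : ℝ) * n ≤ n.choose k * (2 * ((n : ℝ) - k)) := by gcongr
      _ = 2 * (k + 1) * d := by rw [mul_left_comm, ← h2]; ring
      _ = 2 * (k + 1) * (d ^ ((k : ℝ) / (k + 1)) * d ^ ((1 : ℝ) / (k + 1))) := by rw [← h5]
      _ ≤ 2 * (k + 1) * (d ^ ((k : ℝ) / (k + 1)) * n) := by gcongr
      _ = _ := by ring
  exact le_of_mul_le_mul_right h9 hn0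

theorem count_lt_exp (k : ℕ) (c δ : ℝ) (hc : (k : ℝ) / (k + 1) < c) (hδ : 0 < δ) :
    ∃ N : ℕ, ∀ n : ℕ, N ≤ n → ∀ M : ℕ, (M : ℝ) ≤ n.choose (k + 1) / δ + 1 →
      ((3 ^ n.choose k * (n.choose (k + 1) * M + 1) ^ (n.choose k + 1) : ℕ) : ℝ) <
        Real.exp ((n.choose (k + 1) : ℝ) ^ c) := by
  set α : ℝ := (k : ℝ) / (k + 1) with hα
  have hα0 : 0 ≤ α := by positivity
  set K : ℝ := 3 * (1 / δ + 2) with hK
  have hK1 : 1 ≤ K := by
    have : 0 < 1 / δ := by positivity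
    linarith
  obtain ⟨D, hD⟩ := eventually_log_lt ((2 * k + 3) * Real.log K) ((2 * k + 3) * 2) (c - α)
    (by linarith)
  refine ⟨max (2 * k + 1) (⌈D⌉₊ + k), fun n hn M hM => ?_⟩
  have hn1 : 2 * k + 1 ≤ n := le_trans (le_max_left _ _) hn
  have hn2 : ⌈D⌉₊ + k ≤ n := le_trans (le_max_right _ _) hn
  have hN := choose_le_rpow k n hn1
  have hdD : D ≤ (n.choose (k + 1) : ℝ) := by
    have h1 := sub_le_choose k n
    have h2 : ⌈D⌉₊ ≤ n.choose (k + 1) := by omega
    exact le_trans (Nat.le_ceil D) (by exact_mod_cast h2)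
  have hd1 : (1 : ℝ) ≤ (n.choose (k + 1) : ℝ) := by
    exact_mod_cast Nat.choose_pos (by omega : k + 1 ≤ n)
  have hlog := hD _ hdD
  push_cast
  set d : ℝ := (n.choose (k + 1) : ℝ) with hd
  set P : ℕ := n.choose k with hP
  have hd0 : 0 < d := by linarith
  have hdα : 1 ≤ d ^ α := Real.one_le_rpow hd1 hα0
  have hbase : 3 * (d * M + 1) ≤ K * d ^ 2 := by
    have h1 : d * M ≤ d * (d / δ + 1) := by gcongr
    have h2 : d * (d / δ + 1) = 1 / δ * d ^ 2 + d := by ring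
    have h3 : d ≤ d ^ 2 := by nlinarith
    have h4 : K * d ^ 2 = 3 * (1 / δ * d ^ 2 + 2 * d ^ 2) := by rw [hK]; ring
    nlinarith
  have hKd : 1 ≤ K * d ^ 2 := by nlinarith
  have hP1 : (P : ℝ) + 1 ≤ (2 * k + 3) * d ^ α := by
    have : (2 * k + 3) * d ^ α = 2 * (k + 1) * d ^ α + d ^ α := by ring
    linarith
  have hlogK : Real.log (K * d ^ 2) = Real.log K + 2 * Real.log d := by
    rw [Real.log_mul (by linarith) (by positivity), Real.log_pow]
    norm_num
  have hlog0 : 0 ≤ Real.log (K * d ^ 2) := Real.log_nonneg hKd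
  calc (3 : ℝ) ^ P * (d * M + 1) ^ (P + 1) ≤ 3 ^ (P + 1) * (d * M + 1) ^ (P + 1) := by
        gcongr
        · norm_num
        · omega
    _ = (3 * (d * M + 1)) ^ (P + 1) := by rw [mul_pow]
    _ ≤ (K * d ^ 2) ^ (P + 1) := by gcongr
    _ = Real.exp ((P + 1 : ℕ) * Real.log (K * d ^ 2)) := by
        rw [Real.exp_nat_mul, Real.exp_log (by linarith)]
    _ ≤ Real.exp ((2 * k + 3) * d ^ α * Real.log (K * d ^ 2)) := by
        apply Real.exp_le_exp.2
        push_cast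
        gcongr
    _ < Real.exp (d ^ c) := by
        apply Real.exp_lt_exp.2
        have h1 : d ^ c = d ^ α * d ^ (c - α) := by
          rw [← Real.rpow_add hd0]
          ring_nf
        rw [h1, hlogK]
        have h2 : 0 < d ^ α := by linarith
        have h3 : (2 * k + 3) * d ^ α * (Real.log K + 2 * Real.log d) =
            d ^ α * ((2 * k + 3) * Real.log K + (2 * k + 3) * 2 * Real.log d) := by ring
        rw [h3]
        exact mul_lt_mul_of_pos_left hlog h2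

end Pool.Agent.MP_dd77b8_co.H98
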