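import Mathlib

set_option autoImplicit false

namespace Pool.Agent.MP_dd77b8_co.H98

open Finset

/-- A subset of the unit sphere of a Euclidean space of dimension `d` is a union of `2 d` sets of
diameter less than `2`. -/
theorem sphere_cover {ι : Type} [Fintype ι] (X : Set (EuclideanSpace ℝ ι))
    (hX : ∀ f ∈ X, ‖f‖ = 1) :
    ∃ A : Fin (2 * Fintype.card ι) → Set (EuclideanSpace ℝ ι),
      (⋃ i, A i) = X ∧ ∀ i, Metric.diam (A i) < 2 := by
  classical
  have hc : Fintype.card (Bool × ι) = 2 * Fintype.card ι := by simp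
  let e : Fin (2 * Fintype.card ι) ≃ Bool × ι := (Fintype.equivFinOfCardEq hc).symm
  let d : ℝ := Fintype.card ι
  let B : Bool × ι → Set (EuclideanSpace ℝ ι) := fun p =>
    {f | f ∈ X ∧ 1 / d ≤ (f p.2) ^ 2 ∧ (if p.1 then 0 ≤ f p.2 else f p.2 ≤ 0)}
  refine ⟨fun i => B (e i), ?_, ?_⟩
  · ext f
    simp only [Set.mem_iUnion]
    constructor
    · rintro ⟨i, hi⟩
      exact hi.1
    · intro hf
      have h1 : ∑ j, (f j) ^ 2 = 1 := by
        have := EuclideanSpace.real_norm_sq_eq f
        rw [hX f hf] at this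
        linarith
      have hne : Nonempty ι := by
        by_contra hn
        rw [not_nonempty_iff] at hn
        simp at h1
      have hd : 0 < d := by
        simp only [d]
        exact_mod_cast Fintype.card_pos
      have hex : ∃ j, 1 / d ≤ (f j) ^ 2 := by
        by_contra hn
        push Not at hn
        have : ∑ j, (f j) ^ 2 < ∑ _j : ι, 1 / d :=
          Finset.sum_lt_sum_of_nonempty Finset.univ_nonempty (fun j _ => hn j)
        rw [h1, Finset.sum_const, Finset.card_univ, nsmul_eq_mul] at this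
        have h2 : (Fintype.card ι : ℝ) * (1 / d) = 1 := by
          show d * (1 / d) = 1
          field_simp
        linarith
      obtain ⟨j, hj⟩ := hex
      rcases le_total 0 (f j) with h | h
      · refine ⟨e.symm (true, j), ?_⟩
        rw [Equiv.apply_symm_apply]
        exact ⟨hf, hj, by simpa using h⟩
      · refine ⟨e.symm (false, j), ?_⟩
        rw [Equiv.apply_symm_apply]
        exact ⟨hf, hj, by simpa using h⟩
  · intro i
    show Metric.diam (B (e i)) < 2
    generalize e i = p
    obtain ⟨b, j⟩ := p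
    have hd : 0 < d := by
      have : Nonempty ι := ⟨j⟩
      simp only [d]
      exact_mod_cast Fintype.card_pos
    have hd' : 0 < 1 / d := by positivity
    have hlt : Real.sqrt (4 - 1 / d) < 2 := by
      rw [Real.sqrt_lt' (by norm_num)]
      linarith
    refine lt_of_le_of_lt (Metric.diam_le_of_forall_dist_le (Real.sqrt_nonneg _) ?_) hlt
    intro f hf h hh
    obtain ⟨hfX, hf1, hf2⟩ := hf
    obtain ⟨hhX, hh1, hh2⟩ := hh
    rw [dist_eq_norm]
    apply Real.le_sqrt_of_sq_le
    have hpar := parallelogram_law_with_norm ℝ f h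
    rw [hX f hfX, hX h hhX] at hpar
    have hcoord : ((f + h) j) ^ 2 ≤ ‖f + h‖ ^ 2 := by
      rw [EuclideanSpace.real_norm_sq_eq]
      exact Finset.single_le_sum (f := fun i => ((f + h) i) ^ 2) (fun i _ => sq_nonneg _)
        (Finset.mem_univ j)
    have hadd : (f + h) j = f j + h j := rfl
    rw [hadd] at hcoord
    have hprod : 0 ≤ f j * h j := by
      cases b
      · simp only [Bool.false_eq_true, if_false] at hf2 hh2
        exact mul_nonneg_of_nonpos_of_nonpos hf2 hh2
      · simp only [if_true] at hf2 hh2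
        exact mul_nonneg hf2 hh2
    simp only at hf1 hh1
    nlinarith

/-- Every real multiple of a coordinate vector is a product function. -/
theorem single_eq_prod {n k : ℕ} (hk : 1 ≤ k) (T : {T : Finset (Fin n) // T.card = k + 1})
    (c : ℝ) :
    ∃ g : Finset (Fin n) → ℝ,
      EuclideanSpace.single T c =
        WithLp.toLp 2 (fun U : {T : Finset (Fin n) // T.card = k + 1} =>
          ∏ S ∈ U.1.powersetCard k, g S) := by
  classical
  have hne : (T.1.powersetCard k).Nonempty := by
    rw [Finset.powersetCard_nonempty, T.2]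
    omega
  obtain ⟨S0, hS0⟩ := hne
  refine ⟨fun S => if S ⊆ T.1 then (if S = S0 then c else 1) else 0, ?_⟩
  ext U
  simp only [EuclideanSpace.single_apply]
  by_cases hU : U = T
  · subst hU
    simp only [if_true]
    rw [Finset.prod_congr rfl (g := fun S => if S = S0 then c else 1)]
    · rw [Finset.prod_ite_eq' (U.1.powersetCard k) S0 (fun _ => c)]
      simp [hS0]
    · intro S hS
      rw [if_pos (Finset.mem_powersetCard.1 hS).1]
  · simp only [hU, if_false]
    symm
    have hns : ¬ U.1 ⊆ T.1 := by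
      intro hsub
      apply hU
      apply Subtype.ext
      exact Finset.eq_of_subset_of_card_le hsub (by rw [U.2, T.2])
    obtain ⟨x, hxU, hxT⟩ := Finset.not_subset.1 hns
    have h2 : 1 < U.1.card := by rw [U.2]; omega
    obtain ⟨y, hyU, hyx⟩ := Finset.exists_mem_ne h2 x
    apply Finset.prod_eq_zero (i := U.1.erase y)
    · rw [Finset.mem_powersetCard]
      refine ⟨Finset.erase_subset _ _, ?_⟩
      rw [Finset.card_erase_of_mem hyU, U.2]
      omega
    · rw [if_neg]
      intro hsub
      exact hxT (hsub (Finset.mem_erase.2 ⟨fun h => hyx h.symm, hxU⟩))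

/-- The unit product vectors have diameter at least `2`. -/
theorem two_le_diam {n k : ℕ} (hk : 1 ≤ k) (hn : k + 1 ≤ n)
    (X : Set (EuclideanSpace ℝ {T : Finset (Fin n) // T.card = k + 1}))
    (hX : X = {f | ∃ g : Finset (Fin n) → ℝ,
              f = WithLp.toLp 2 (fun T : {T : Finset (Fin n) // T.card = k + 1} =>
                    ∏ S ∈ T.1.powersetCard k, g S) ∧ ‖f‖ = 1}) :
    2 ≤ Metric.diam X := by
  classical
  have hne : ((Finset.univ : Finset (Fin n)).powersetCard (k + 1)).Nonempty := by
    rw [Finset.powersetCard_nonempty]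
    simpa using hn
  obtain ⟨T0, hT0⟩ := hne
  let T : {T : Finset (Fin n) // T.card = k + 1} := ⟨T0, (Finset.mem_powersetCard.1 hT0).2⟩
  have hb : Bornology.IsBounded X := by
    refine (Metric.isBounded_closedBall (x := 0) (r := 1)).subset ?_
    intro f hf
    rw [hX] at hf
    obtain ⟨g, -, h1⟩ := hf
    simp [h1]
  have hmem : ∀ c : ℝ, |c| = 1 → EuclideanSpace.single T c ∈ X := by
    intro c hc
    obtain ⟨g, hg⟩ := single_eq_prod hk T c
    rw [hX]
    exact ⟨g, hg, by simp [hc]⟩
  have := Metric.dist_le_diam_of_mem hb (hmem 1 (by simp)) (hmem (-1) (by simp))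
  rw [EuclideanSpace.dist_single_same] at this
  norm_num [Real.dist_eq] at this
  exact this

theorem card_sub (n k : ℕ) :
    Fintype.card {T : Finset (Fin n) // T.card = k} = n.choose k := by
  simp

theorem two_mul_lt_exp (d : ℝ) (hd : 32 ≤ d) : 2 * d < Real.exp (d ^ ((4 : ℝ) / 5)) := by
  have hd0 : 0 < d := by linarith
  set y : ℝ := d ^ ((1 : ℝ) / 5) with hy
  have hy0 : 0 < y := Real.rpow_pos_of_pos hd0 _
  have hy5 : y ^ 5 = d := by
    rw [hy, ← Real.rpow_natCast, ← Real.rpow_mul hd0.le]
    norm_num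
  have hy4 : d ^ ((4 : ℝ) / 5) = y ^ 4 := by
    rw [hy, ← Real.rpow_natCast, ← Real.rpow_mul hd0.le]
    norm_num
  have hy2 : 2 ≤ y := by
    by_contra h
    push Not at h
    have : y ^ 5 < 2 ^ 5 := pow_lt_pow_left₀ h hy0.le (by norm_num)
    linarith
  rw [hy4, ← hy5]
  have h1 := Real.quadratic_le_exp_of_nonneg (x := y ^ 4) (by positivity)
  have h3 : (8 : ℝ) ≤ y ^ 3 := by
    have : (2 : ℝ) ^ 3 ≤ y ^ 3 := pow_le_pow_left₀ (by norm_num) hy2 3
    linarith
  have h5 : 0 < y ^ 5 := by positivity
  have h4 : 0 < y ^ 4 := by positivity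
  have : (y ^ 4) ^ 2 = y ^ 5 * y ^ 3 := by ring
  nlinarith

end Pool.Agent.MP_dd77b8_co.H98
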