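import Pool.Agent.MP_dd77b8_co.H98.Basic

set_option autoImplicit false

namespace Pool.Agent.MP_dd77b8_co.H98

open Finset

theorem sum_choose_le (m K : ℕ) : ∑ j ∈ Finset.Iic K, m.choose j ≤ (m + 1) ^ K := by
  rw [add_pow]
  have : Finset.Iic K = Finset.range (K + 1) := by
    ext j
    simp
  rw [this]
  apply Finset.sum_le_sum
  intro j hj
  have hj' : j ≤ K := Nat.lt_succ_iff.1 (Finset.mem_range.1 hj)
  have h1 : 1 ≤ K.choose j := Nat.choose_pos hj'
  calc m.choose j ≤ m ^ j := Nat.choose_le_pow m j
    _ = m ^ j * 1 ^ (K - j) * 1 := by simp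
    _ ≤ m ^ j * 1 ^ (K - j) * (K.choose j : ℕ) := Nat.mul_le_mul_left _ h1

/-- The number of cells of an arrangement of half-spaces. -/
theorem card_patterns {σ I : Type} [Fintype σ] [Fintype I] [DecidableEq I]
    (w : I → σ → ℝ) (c : I → ℝ) (𝒜 : Finset (Finset I))
    (h𝒜 : ∀ s ∈ 𝒜, ∃ a : σ → ℝ, ∀ i, i ∈ s ↔ c i ≤ ∑ x, w i x * a x) :
    𝒜.card ≤ (Fintype.card I + 1) ^ (Fintype.card σ + 1) := by
  classical
  have hvc : 𝒜.vcDim ≤ Fintype.card σ + 1 := by
    unfold Finset.vcDim
    apply Finset.sup_le
    intro s hs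
    rw [Finset.mem_shatterer] at hs
    by_contra hlt
    push Not at hlt
    let v : s → (Option σ → ℝ) := fun i o =>
      match o with
      | none => c i
      | some x => w i x
    have hdep : ¬ LinearIndependent ℝ v := by
      intro hli
      have := hli.fintype_card_le_finrank
      simp only [Fintype.card_coe, Module.finrank_fintype_fun_eq_card, Fintype.card_option] at this
      omega
    have key : ∀ lam : s → ℝ, ∑ i, lam i • v i = 0 → ∀ i0, ¬ lam i0 < 0 := by
      intro lam hlam i0 hi0
      let t : Finset I := s.filter (fun i => ∃ h : i ∈ s, 0 < lam ⟨i, h⟩)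
      obtain ⟨u, hu, hsu⟩ := hs (t := t) (Finset.filter_subset _ _)
      obtain ⟨a, ha⟩ := h𝒜 u hu
      have hmem : ∀ i : s, (c i ≤ ∑ x, w i x * a x) ↔ 0 < lam i := by
        intro i
        rw [← ha]
        constructor
        · intro hi
          have : (i : I) ∈ t := by
            rw [← hsu]
            exact Finset.mem_inter.2 ⟨i.2, hi⟩
          obtain ⟨-, h, h'⟩ := Finset.mem_filter.1 this
          exact h'
        · intro hi
          have : (i : I) ∈ t := Finset.mem_filter.2 ⟨i.2, i.2, hi⟩
          rw [← hsu] at this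
          exact (Finset.mem_inter.1 this).2
      have h0 : ∑ i : s, lam i * c i = 0 := by
        have := congrFun hlam none
        simpa [v, Finset.sum_apply] using this
      have h1 : ∀ x, ∑ i : s, lam i * w i x = 0 := by
        intro x
        have := congrFun hlam (some x)
        simpa [v, Finset.sum_apply] using this
      have h2 : ∑ i : s, lam i * (∑ x, w i x * a x - c i) = 0 := by
        simp only [mul_sub, Finset.sum_sub_distrib, h0, Finset.mul_sum, sub_zero]
        rw [Finset.sum_comm]
        apply Finset.sum_eq_zero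
        intro x _
        have : ∑ i : s, lam i * (w i x * a x) = (∑ i : s, lam i * w i x) * a x := by
          rw [Finset.sum_mul]
          exact Finset.sum_congr rfl (fun i _ => by ring)
        rw [this, h1 x, zero_mul]
      have h3 : 0 < ∑ i : s, lam i * (∑ x, w i x * a x - c i) := by
        apply Finset.sum_pos'
        · intro i _
          by_cases hi : 0 < lam i
          · exact mul_nonneg hi.le (sub_nonneg.2 ((hmem i).2 hi))
          · have h4 : ¬ (c i ≤ ∑ x, w i x * a x) := fun h => hi ((hmem i).1 h)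
            push Not at hi h4
            exact mul_nonneg_of_nonpos_of_nonpos hi (by linarith)
        · refine ⟨i0, Finset.mem_univ _, ?_⟩
          have h4 : ¬ (c i0 ≤ ∑ x, w i0 x * a x) := fun h => by
            have := (hmem i0).1 h
            linarith
          push Not at h4
          exact mul_pos_of_neg_of_neg hi0 (by linarith)
      linarith
    obtain ⟨lam, hlam, i0, hi0⟩ := Fintype.not_linearIndependent_iff.1 hdep
    rcases lt_or_gt_of_ne hi0 with h | h
    · exact key lam hlam i0 h
    · refine key (fun i => - lam i) ?_ i0 (by simpa using h)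
      simp only [neg_smul, Finset.sum_neg_distrib, hlam, neg_zero]
  calc 𝒜.card ≤ 𝒜.shatterer.card := Finset.card_le_card_shatterer 𝒜
    _ ≤ ∑ k ∈ Finset.Iic 𝒜.vcDim, (Fintype.card I).choose k := Finset.card_shatterer_le_sum_vcDim
    _ ≤ ∑ k ∈ Finset.Iic (Fintype.card σ + 1), (Fintype.card I).choose k :=
        Finset.sum_le_sum_of_subset (Finset.Iic_subset_Iic.2 hvc)
    _ ≤ _ := sum_choose_le _ _

theorem close_of_thresholds (M : ℕ) (hM : 0 < M) (x y : ℝ) (hx : 0 ≤ x) (hy1 : y ≤ 1)
    (h : ∀ j : Fin M, ((j : ℕ) + 1 : ℝ) / M ≤ y → ((j : ℕ) + 1 : ℝ) / M ≤ x) :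
    y - x ≤ 1 / M := by
  by_contra hlt
  push Not at hlt
  have hM' : (0 : ℝ) < M := by exact_mod_cast hM
  have hfl : (⌊x * M⌋₊ : ℝ) ≤ x * M := Nat.floor_le (by positivity)
  have hfl' : x * M < ⌊x * M⌋₊ + 1 := Nat.lt_floor_add_one _
  have hlt' : 1 < (y - x) * M := by
    rwa [div_lt_iff₀ hM'] at hlt
  have hj : ⌊x * M⌋₊ < M := by
    have : (⌊x * M⌋₊ : ℝ) < M := by nlinarith
    exact_mod_cast this
  have := h ⟨⌊x * M⌋₊, hj⟩ (by
    rw [div_le_iff₀ hM']
    simp only
    nlinarith)
  rw [div_le_iff₀ hM'] at this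
  simp only at this
  linarith

/-- Covering numbers of the unit vectors of a cone given by square-free monomials. -/
theorem monomial_cover {σ ι : Type} [Fintype σ] [Fintype ι] [DecidableEq σ]
    (F : ι → Finset σ) (M : ℕ) (hM : 0 < M) (Y : Set (EuclideanSpace ℝ ι))
    (hY : ∀ f ∈ Y, ‖f‖ = 1 ∧ ∃ g : σ → ℝ, ∀ T, f T = ∏ S ∈ F T, g S) :
    ∃ m : ℕ, m ≤ 3 ^ Fintype.card σ * (Fintype.card ι * M + 1) ^ (Fintype.card σ + 1) ∧
      ∃ A : Fin m → Set (EuclideanSpace ℝ ι), (⋃ i, A i) = Y ∧
        ∀ i, Metric.diam (A i) ≤ Real.sqrt (Fintype.card ι) / M := by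
  classical
  have hM' : (0 : ℝ) < M := by exact_mod_cast hM
  let w : ι × Fin M → σ → ℝ := fun p x => if x ∈ F p.1 then 1 else 0
  let c : ι × Fin M → ℝ := fun p => Real.log ((((p.2 : ℕ) : ℝ) + 1) / M)
  let pat : (σ → ℝ) → Finset (ι × Fin M) := fun g =>
    Finset.univ.filter (fun p => c p ≤ ∑ x, w p x * Real.log |g x|)
  let 𝒜 : Finset (Finset (ι × Fin M)) :=
    Finset.univ.filter (fun s => ∃ a : σ → ℝ, ∀ i, i ∈ s ↔ c i ≤ ∑ x, w i x * a x)
  have h𝒜 : 𝒜.card ≤ (Fintype.card ι * M + 1) ^ (Fintype.card σ + 1) := by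
    have := card_patterns w c 𝒜 (fun s hs => (Finset.mem_filter.1 hs).2)
    simpa using this
  have hpat : ∀ g, pat g ∈ 𝒜 := by
    intro g
    refine Finset.mem_filter.2 ⟨Finset.mem_univ _, fun x => Real.log |g x|, fun i => ?_⟩
    simp [pat]
  let κ := (σ → SignType) × 𝒜
  let B : κ → Set (EuclideanSpace ℝ ι) := fun p =>
    {f | f ∈ Y ∧ ∃ g : σ → ℝ, (∀ T, f T = ∏ S ∈ F T, g S) ∧
      (∀ x, SignType.sign (g x) = p.1 x) ∧ pat g = p.2}
  have hcard : Fintype.card κ = 3 ^ Fintype.card σ * 𝒜.card := by
    simp [κ, Fintype.card_prod, show Fintype.card SignType = 3 from rfl]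
  let e : Fin (Fintype.card κ) ≃ κ := (Fintype.equivFin κ).symm
  refine ⟨Fintype.card κ, ?_, fun i => B (e i), ?_, ?_⟩
  · rw [hcard]
    exact Nat.mul_le_mul_left _ h𝒜
  · ext f
    simp only [Set.mem_iUnion]
    constructor
    · rintro ⟨i, hi⟩
      exact hi.1
    · intro hf
      obtain ⟨-, g, hg⟩ := hY f hf
      refine ⟨e.symm (fun x => SignType.sign (g x), ⟨pat g, hpat g⟩), ?_⟩
      rw [Equiv.apply_symm_apply]
      exact ⟨hf, g, hg, fun x => rfl, rfl⟩
  · intro i
    show Metric.diam (B (e i)) ≤ _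
    generalize e i = p
    refine Metric.diam_le_of_forall_dist_le (by positivity) ?_
    rintro f ⟨hfY, g, hg, hgs, hgp⟩ f' ⟨hfY', g', hg', hgs', hgp'⟩
    have hsign : ∀ x, SignType.sign (g x) = SignType.sign (g' x) := fun x => by
      rw [hgs, hgs']
    have hpp : pat g = pat g' := by rw [hgp, hgp']
    have hle1 : ∀ h ∈ Y, ∀ T, |h T| ≤ 1 := by
      intro h hh T
      have := PiLp.norm_apply_le h T
      rw [(hY h hh).1] at this
      simpa using this
    have hlog : ∀ (u : σ → ℝ) (T : ι) (j : Fin M), (∀ S ∈ F T, u S ≠ 0) →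
        ((T, j) ∈ pat u ↔ ((j : ℕ) + 1 : ℝ) / M ≤ |∏ S ∈ F T, u S|) := by
      intro u T j hu
      have hpos : 0 < |∏ S ∈ F T, u S| := abs_pos.2 (Finset.prod_ne_zero_iff.2 hu)
      have hsum : ∑ x, w (T, j) x * Real.log |u x| = Real.log |∏ S ∈ F T, u S| := by
        rw [Finset.abs_prod, Real.log_prod (fun S hS => abs_ne_zero.2 (hu S hS))]
        simp only [w, ite_mul, one_mul, zero_mul]
        rw [Finset.sum_ite_mem, Finset.univ_inter]
      simp only [pat, Finset.mem_filter, Finset.mem_univ, true_and]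
      rw [hsum]
      exact Real.log_le_log_iff (by positivity) hpos
    have hcoord : ∀ T, |f T - f' T| ≤ 1 / M := by
      intro T
      by_cases hz : ∀ S ∈ F T, g S ≠ 0
      · have hz' : ∀ S ∈ F T, g' S ≠ 0 := by
          intro S hS h0
          have := hsign S
          rw [h0, sign_zero, sign_eq_zero_iff] at this
          exact hz S hS this
        have hs : SignType.sign (f T) = SignType.sign (f' T) := by
          rw [hg T, hg' T]
          have e1 := map_prod (signHom (α := ℝ)) g (F T)
          have e2 := map_prod (signHom (α := ℝ)) g' (F T)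
          simp only [signHom, MonoidWithZeroHom.coe_mk, ZeroHom.coe_mk] at e1 e2
          rw [e1, e2]
          exact Finset.prod_congr rfl (fun S _ => hsign S)
        have hab : |f T - f' T| = |(|f T| - |f' T|)| := by
          have e1 := sign_mul_abs (f T)
          have e2 := sign_mul_abs (f' T)
          have hne : f' T ≠ 0 := by
            rw [hg' T]
            exact Finset.prod_ne_zero_iff.2 hz'
          rw [hs] at e1
          have : f T - f' T = (SignType.sign (f' T) : ℝ) * (|f T| - |f' T|) := by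
            rw [mul_sub, e1, e2]
          rw [this, abs_mul]
          rcases lt_or_gt_of_ne hne with h | h
          · simp [sign_neg h]
          · simp [sign_pos h]
        rw [hab, abs_le]
        constructor
        · have := close_of_thresholds M hM |f T| |f' T| (abs_nonneg _) (hle1 f' hfY' T) (by
            intro j hj
            rw [hg' T, ← hlog g' T j hz', ← hpp, hlog g T j hz, ← hg T] at hj
            exact hj)
          linarith
        · exact close_of_thresholds M hM |f' T| |f T| (abs_nonneg _) (hle1 f hfY T) (by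
            intro j hj
            rw [hg T, ← hlog g T j hz, hpp, hlog g' T j hz', ← hg' T] at hj
            exact hj)
      · push Not at hz
        obtain ⟨S, hS, h0⟩ := hz
        have h0' : g' S = 0 := by
          have := hsign S
          rw [h0, sign_zero] at this
          exact sign_eq_zero_iff.1 this.symm
        rw [hg T, hg' T, Finset.prod_eq_zero hS h0, Finset.prod_eq_zero hS h0']
        simp
    rw [EuclideanSpace.dist_eq]
    have : Real.sqrt (Fintype.card ι) / M = Real.sqrt (∑ _T : ι, (1 / (M : ℝ)) ^ 2) := by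
      rw [Finset.sum_const, Finset.card_univ, nsmul_eq_mul, Real.sqrt_mul (by positivity),
        Real.sqrt_sq (by positivity)]
      ring
    rw [this]
    apply Real.sqrt_le_sqrt
    apply Finset.sum_le_sum
    intro T _
    rw [Real.dist_eq]
    exact pow_le_pow_left₀ (abs_nonneg _) (hcoord T) 2

end Pool.Agent.MP_dd77b8_co.H98
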