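import Pool.Agent.MP_dd77b8_co.H98.Basic

set_option autoImplicit false

namespace Pool.Agent.MP_dd77b8_co.H98

open Finset

/-- A subset of the unit sphere of a Euclidean space of dimension `d` is a union of `d + 1` sets of
diameter less than `2`. -/
theorem sphere_cover' {ι : Type} [Fintype ι] [Nonempty ι] (X : Set (EuclideanSpace ℝ ι))
    (hX : ∀ f ∈ X, ‖f‖ = 1) :
    ∃ A : Fin (Fintype.card ι + 1) → Set (EuclideanSpace ℝ ι),
      (⋃ i, A i) = X ∧ ∀ i, Metric.diam (A i) < 2 := by
  classical
  have hc : Fintype.card (Option ι) = Fintype.card ι + 1 := by simp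
  let e : Fin (Fintype.card ι + 1) ≃ Option ι := (Fintype.equivFinOfCardEq hc).symm
  let d : ℝ := Fintype.card ι
  have hd1 : 1 ≤ d := by
    simp only [d]
    exact_mod_cast Fintype.card_pos
  have hd : 0 < d := by linarith
  let η : ℝ := 1 / (2 * d)
  have hη : 0 < η := by positivity
  let B : Option ι → Set (EuclideanSpace ℝ ι) := fun p =>
    match p with
    | none => {f | f ∈ X ∧ ∀ j, f j < η}
    | some j => {f | f ∈ X ∧ η ≤ f j}
  have hBX : ∀ p, B p ⊆ X := by
    intro p
    cases p with
    | none => exact fun f hf => hf.1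
    | some j => exact fun f hf => hf.1
  have hcoord : ∀ (v : EuclideanSpace ℝ ι) (j : ι), |v j| ≤ ‖v‖ := by
    intro v j
    simpa using PiLp.norm_apply_le v j
  have hsum : ∀ p, ∀ f ∈ B p, ∀ h ∈ B p, η ≤ ‖f + h‖ := by
    intro p f hf h hh
    cases p with
    | some j =>
      have h1 := hcoord (f + h) j
      have hadd : (f + h) j = f j + h j := rfl
      rw [hadd] at h1
      have h2 := hf.2
      have h3 := hh.2
      have := le_abs_self (f j + h j)
      linarith
    | none =>
      by_contra hlt
      push Not at hlt
      have h1 : ∑ j, (f j) ^ 2 = 1 := by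
        have := EuclideanSpace.real_norm_sq_eq f
        rw [hX f hf.1] at this
        linarith
      have h2 : ∀ j, (f j) ^ 2 < 1 / d := by
        intro j
        have h3 := hcoord (f + h) j
        have hadd : (f + h) j = f j + h j := rfl
        rw [hadd] at h3
        have h4 := hf.2 j
        have h5 := hh.2 j
        have h6 := neg_abs_le (f j + h j)
        have h7 : |f j| < 2 * η := by
          rw [abs_lt]
          constructor <;> linarith
        have h8 : 2 * η = 1 / d := by
          simp only [η]
          field_simp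
        have h9 : (f j) ^ 2 < (1 / d) ^ 2 := by
          rw [← sq_abs, ← h8]
          exact pow_lt_pow_left₀ h7 (abs_nonneg _) (by norm_num)
        have h10 : (1 / d) ^ 2 ≤ 1 / d := by
          have h11 : 1 / d ≤ 1 := by
            rw [div_le_one hd]
            exact hd1
          have h12 : 0 < 1 / d := by positivity
          nlinarith
        linarith
      have : ∑ j, (f j) ^ 2 < ∑ _j : ι, 1 / d :=
        Finset.sum_lt_sum_of_nonempty Finset.univ_nonempty (fun j _ => h2 j)
      rw [h1, Finset.sum_const, Finset.card_univ, nsmul_eq_mul] at this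
      have h3 : (Fintype.card ι : ℝ) * (1 / d) = 1 := by
        show d * (1 / d) = 1
        field_simp
      linarith
  refine ⟨fun i => B (e i), ?_, ?_⟩
  · ext f
    simp only [Set.mem_iUnion]
    constructor
    · rintro ⟨i, hi⟩
      exact hBX _ hi
    · intro hf
      by_cases h : ∀ j, f j < η
      · refine ⟨e.symm none, ?_⟩
        rw [Equiv.apply_symm_apply]
        exact ⟨hf, h⟩
      · push Not at h
        obtain ⟨j, hj⟩ := h
        refine ⟨e.symm (some j), ?_⟩
        rw [Equiv.apply_symm_apply]
        exact ⟨hf, hj⟩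
  · intro i
    show Metric.diam (B (e i)) < 2
    generalize e i = p
    have hlt : Real.sqrt (4 - η ^ 2) < 2 := by
      rw [Real.sqrt_lt' (by norm_num)]
      have : 0 < η ^ 2 := by positivity
      linarith
    refine lt_of_le_of_lt (Metric.diam_le_of_forall_dist_le (Real.sqrt_nonneg _) ?_) hlt
    intro f hf h hh
    rw [dist_eq_norm]
    apply Real.le_sqrt_of_sq_le
    have hpar := parallelogram_law_with_norm ℝ f h
    rw [hX f (hBX p hf), hX h (hBX p hh)] at hpar
    have h1 := hsum p f hf h hh
    have h2 : η ^ 2 ≤ ‖f + h‖ ^ 2 := pow_le_pow_left₀ hη.le h1 2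
    linarith

end Pool.Agent.MP_dd77b8_co.H98
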